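import Pool.Agent.Mg.F9a3194.Gc3f225

namespace Pool.Agent.Results.MP_9a3194_co.AllSurfaces

open Pool.Agent.MP_9a3194_co

/-- For `p / q > 4`, triangulations of closed surfaces (orientable or not) with large minimum
degree and large edge-width have a local tension with `q ≤ |φ| ≤ p - q`; the case `p = 5`,
`q = 1` is a 5-local-tension. -/
theorem result : ∀ p q : ℕ, 0 < q → 4 * q < p → ∃ c : ℕ, ∀ (F : Type) [Fintype F]
    (T : Surf F), T.Connected → T.MinDeg c → (∀ w, T.Closed w → w.length < c → T.Contr w) →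
    ∃ φ : F × ZMod 3 → ℤ, (∀ d, φ (T.α d) = if T.tw d then φ d else -φ d) ∧
      (∀ d, (q : ℤ) ≤ |φ d| ∧ |φ d| ≤ p - q) ∧
      ∀ w, T.Closed w → T.Contr w →
        (w.map fun e => if e.2 then -φ e.1 else φ e.1).sum = 0 :=
  Surf.tension

end Pool.Agent.Results.MP_9a3194_co.AllSurfaces
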