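import Pool.Agent.Mg.F9a3194.G406112

open Finset

namespace Pool.Agent.Results.MP_9a3194_co.CubicFlow

/-- For `p / q > 4`, every cubic graph of large cyclic edge-connectivity has an integer flow with
`q ≤ |f| ≤ p - q`; for `p = 5`, `q = 1` this is a nowhere-zero 5-flow. -/
theorem result : ∀ p q : ℕ, 0 < q → 4 * q < p → ∃ c : ℕ, ∀ (V : Type) [Fintype V] [DecidableEq V]
    (G : SimpleGraph V) [DecidableRel G.Adj], G.IsRegularOfDegree 3 →
    (∀ X : Finset V, ¬ (G.induce (X : Set V)).IsAcyclic →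
      ¬ (G.induce ((Xᶜ : Finset V) : Set V)).IsAcyclic → c ≤ (G.interedges X Xᶜ).card) →
    ∃ f : V → V → ℤ, (∀ u v, f v u = -f u v) ∧
      (∀ u v, G.Adj u v → (q : ℤ) ≤ |f u v| ∧ |f u v| ≤ p - q) ∧
      ∀ u, ∑ v ∈ G.neighborFinset u, f u v = 0 := by
  intro p q hq hp
  obtain ⟨c, hc⟩ := Pool.Agent.MP_9a3194_co.core' p q hq hp
  refine ⟨c, fun V _ _ G _ h3 hcyc => hc V G h3 fun X hX hX' => ?_⟩
  by_cases h1 : (G.induce (X : Set V)).IsAcyclic
  · have := Pool.Agent.MP_9a3194_co.forest_cut G h3 X hX h1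
    omega
  by_cases h2 : (G.induce ((Xᶜ : Finset V) : Set V)).IsAcyclic
  · have h4 := Pool.Agent.MP_9a3194_co.forest_cut G h3 Xᶜ hX' h2
    have h5 : (G.interedges Xᶜ X).card = (G.interedges X Xᶜ).card :=
      haveI := G.symm; Rel.card_interedges_comm _ _
    rw [compl_compl] at h4
    omega
  · have := hcyc X h1 h2
    omega

end Pool.Agent.Results.MP_9a3194_co.CubicFlow
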