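import Pool.Agent.MP_9a3194_co.En.Lat
import Pool.Agent.MP_9a3194_co.En.Two
import Pool.Agent.MP_9a3194_co.En.Side
import Pool.Agent.MP_9a3194_co.En.Rank
import Pool.Agent.MP_9a3194_co.En.Hof
import Pool.Agent.MP_9a3194_co.En.Bm
import Pool.Agent.MP_9a3194_co.En.Rnd
import Pool.Agent.MP_9a3194_co.En.CoreB
import Pool.Agent.MP_9a3194_co.En.CoreU
import Pool.Agent.MP_9a3194_co.En.Sheet
import Pool.Agent.MP_9a3194_co.En.Pot
import Pool.Agent.MP_9a3194_co.En.Act
import Pool.Agent.MP_9a3194_co.En.Key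
import Pool.Agent.MP_9a3194_co.En.Cuts
import Pool.Agent.MP_9a3194_co.En.Height
import Pool.Agent.MP_9a3194_co.En.Fin

namespace Pool.Agent.Results.MP_9a3194_co.DenseMaps

open Pool.Agent.MP_9a3194_co.En

/-- For `σ > p / (p - 2 q)`, maps of large edge-width on closed surfaces (orientable or not) in
which every partition of the faces into `m` classes has at least `σ (m - 1)` edges between
different classes have a local tension with `q ≤ |φ| ≤ p - q`; the case `p = 5`, `q = 1`,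
`σ > 5 / 3` is a 5-local-tension. -/
theorem result : ∀ (p q : ℕ) (σ : ℝ), 2 * q < p → (p : ℝ) < σ * (p - 2 * q) → ∃ c : ℕ,
    ∀ (D : Type) [Fintype D] [DecidableEq D] (M : Pool.Agent.MP_9a3194_co.En.Poly D),
    (∀ π : D → ℕ, (∀ d, π (M.nxt d) = π d) →
      2 * σ * (((Finset.univ.image π).card : ℝ) - 1) ≤
        ((Finset.univ.filter fun d => π (M.α d) ≠ π d).card : ℝ)) →
    (∀ x w, M.Walk x w x → w.length < c → M.Contr w) →
    ∃ φ : D → ℤ, (∀ d, φ (M.α d) = if M.tw d then φ d else -φ d) ∧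
      (∀ d, (q : ℤ) ≤ |φ d| ∧ |φ d| ≤ p - q) ∧
      ∀ x w, M.Walk x w x → M.Contr w →
        (w.map fun e => if e.2 then -φ e.1 else φ e.1).sum = 0 :=
  map_pf (coreB_pf (side_pf lat_pf) rank_pf hof_pf two_pf)
    (coreU_pf (side_pf lat_pf) rank_pf (rnd_pf bm_pf) two_pf)
    (cuts_pf sheet_pf (key_pf sheet_pf pot_pf act_pf)) height_pf

end Pool.Agent.Results.MP_9a3194_co.DenseMaps
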