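import Pool.Agent.MP_9a3194_co.En.Lat
import Pool.Agent.MP_9a3194_co.En.Two
import Pool.Agent.MP_9a3194_co.En.Side
import Pool.Agent.MP_9a3194_co.En.Rank
import Pool.Agent.MP_9a3194_co.En.Hof
import Pool.Agent.MP_9a3194_co.En.CoreB
import Pool.Agent.MP_9a3194_co.En.Tree

namespace Pool.Agent.Results.MP_9a3194_co.TreeFlow

open Pool.Agent.MP_9a3194_co.En

/-- A multigraph in which every partition of the vertices into `m` classes has at least
`p (m - 1) / (p - 2 q)` crossing edges has an integer flow with `q ≤ |f| ≤ p - q`; the case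
`p = 5`, `q = 1` is a nowhere-zero 5-flow under fractional tree packing number at least `5 / 3`. -/
theorem result : ∀ p q : ℕ, 2 * q < p →
    ∀ (V E : Type) [Fintype V] [DecidableEq V] [Fintype E] [DecidableEq E] (s t : E → V),
    (∀ π : V → ℕ, (p : ℤ) * (((Finset.univ.image π).card : ℤ) - 1) ≤
      ((p : ℤ) - 2 * q) * ((Finset.univ.filter fun e => π (s e) ≠ π (t e)).card : ℤ)) →
    ∃ f : E → ℤ, (∀ e, (q : ℤ) ≤ |f e| ∧ |f e| ≤ p - q) ∧
      ∀ v, ∑ e ∈ Finset.univ.filter (fun e => s e = v), f e =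
        ∑ e ∈ Finset.univ.filter (fun e => t e = v), f e :=
  tree_pf (coreB_pf (side_pf lat_pf) rank_pf hof_pf two_pf)

end Pool.Agent.Results.MP_9a3194_co.TreeFlow
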